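import Pool.Agent.R213.Schat.Seq

open Filter Topology Set Complex
open scoped Real InnerProductSpace ENNReal

namespace Pool.Agent.Results.MP_6ade77_an.Unbounded

open R213Schat

universe u

/-- Membership in the disk algebra of a function on the unit circle. -/
def InDiskAlgebra (f : ℂ → ℂ) : Prop :=
  ∃ g : ℂ → ℂ, ContinuousOn g (Metric.closedBall 0 1) ∧ DifferentiableOn ℂ g (Metric.ball 0 1) ∧
    ∀ z, ‖z‖ = 1 → g z = f z

/-- `X` is the value `f(T)` of the functional calculus of the contraction `T` at the continuous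
function `f` on the circle: (1) for every unitary dilation `U` of `T` on a Hilbert space `K`
(with isometric embedding `V : H → K`) one has `X = V* f(U) V`; (2) `X` is the norm limit of
trigonometric polynomials of `T` that converge uniformly to `f` on the circle. -/
structure IsValue {H : Type u} [NormedAddCommGroup H] [InnerProductSpace ℂ H] [CompleteSpace H]
    (f : ℂ → ℂ) (T X : H →L[ℂ] H) : Prop where
  dilation : ∀ (K : Type u) [NormedAddCommGroup K] [InnerProductSpace ℂ K] [CompleteSpace K]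
    (V : H →ₗᵢ[ℂ] K) (U : K →L[ℂ] K), IsUnitaryDilation T V U → compress V (cfc f U) = X
  approx : ∀ ε : ℝ, 0 < ε → ∃ (m : ℕ) (a b : ℕ → ℂ),
    (∀ z : ℂ, ‖z‖ = 1 → ‖f z - trigVal m a b z‖ ≤ ε) ∧ ‖X - trigOp m a b T‖ ≤ ε

lemma isValue_TT {H : Type u} [NormedAddCommGroup H] [InnerProductSpace ℂ H] [CompleteSpace H]
    {b : ℕ → H} (hb : Orthonormal ℂ b) {r : ℝ} (hr0 : 0 ≤ r) (hr1 : r ≤ 1) (N : ℕ) :
    IsValue ff (TT b r N) (XX b r N) := by
  refine ⟨fun K _ _ _ V U h => dilation_value hb hr0 hr1 N h, fun ε hε => ?_⟩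
  have h1 := tail_tendsto.eventually (gt_mem_nhds hε)
  have h2 := (tendsto_iff_norm_sub_tendsto_zero.mp (trigOp_tendsto hb hr0 hr1 N)).eventually
    (gt_mem_nhds hε)
  obtain ⟨m, hm1, hm2⟩ := (h1.and h2).exists
  refine ⟨m, _, _, fun z hz => (ff_sub_fm_le hz.le m).trans hm1.le, ?_⟩
  rw [norm_sub_rev]
  exact hm2.le

/-- **Answer to Q1: yes.** For every `1 < p < ∞` and every infinite dimensional complex Hilbert
space `H` there are a Lipschitz function `f` on the circle outside the disk algebra, a contraction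
`T₁` and contractions `T₀ n` with `sup ‖T₁ - T₀ n‖_p < ∞`, `‖T₀ n‖` nondecreasing with limit `1`,
and `‖f(T₁) - f(T₀ n)‖_p` finite, strictly increasing, with limit `∞`. -/
theorem result (H : Type u) [NormedAddCommGroup H] [InnerProductSpace ℂ H] [CompleteSpace H]
    (hinf : ¬ FiniteDimensional ℂ H) (p : ℝ) (hp : 1 < p) :
    ∃ f : ℂ → ℂ, (∃ C : ℝ, ∀ z w : ℂ, ‖z‖ = 1 → ‖w‖ = 1 → ‖f z - f w‖ ≤ C * ‖z - w‖) ∧
      ¬ InDiskAlgebra f ∧
      ∃ (T₁ X₁ : H →L[ℂ] H) (T₀ X₀ : ℕ → H →L[ℂ] H) (s : ℕ → ℝ),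
        ‖T₁‖ ≤ 1 ∧ (∀ n, ‖T₀ n‖ ≤ 1) ∧
        IsValue f T₁ X₁ ∧ (∀ n, IsValue f (T₀ n) (X₀ n)) ∧
        (⨆ n, schatten p (T₁ - T₀ n)) < ⊤ ∧
        Monotone (fun n => ‖T₀ n‖) ∧ Tendsto (fun n => ‖T₀ n‖) atTop (𝓝 1) ∧
        (∀ n, schatten p (X₁ - X₀ n) = ENNReal.ofReal (s n)) ∧
        (∀ n, 0 ≤ s n) ∧ StrictMono s ∧ Tendsto s atTop atTop := by
  obtain ⟨b, hb⟩ := exists_orthonormal_seq H hinf
  obtain ⟨φ, hφ, hsφ⟩ := strictMono_subseq_of_tendsto_atTop (ss_tendsto hp)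
  refine ⟨ff, ⟨3, fun z w hz hw => ff_lip hz hw⟩, ?_, ?_⟩
  · rintro ⟨g, hg1, hg2, hg3⟩
    refine not_disk (g := g) ⟨hg2, ?_⟩ hg3
    rwa [closure_ball (0:ℂ) one_ne_zero]
  have hr0 : ∀ n : ℕ, (0:ℝ) ≤ 1 - 1 / ((n + 2 : ℕ) : ℝ) := by
    intro n
    rw [sub_nonneg, div_le_one (by positivity)]
    push_cast
    have : (0:ℝ) ≤ n := by positivity
    linarith
  have hr1 : ∀ n : ℕ, (1:ℝ) - 1 / ((n + 2 : ℕ) : ℝ) ≤ 1 := by
    intro n
    have : (0:ℝ) ≤ 1 / ((n + 2 : ℕ) : ℝ) := by positivity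
    linarith
  have hT1 : TT b 1 0 = 1 := by simp [TT]
  have hGpos : ∀ n : ℕ, 0 ≤ GG (1 - 1 / ((n + 2 : ℕ) : ℝ)) := by
    intro n
    refine tsum_nonneg fun k => ?_
    have := pow_le_one₀ (n := k) (hr0 n) (hr1 n)
    have := cf_nonneg k
    apply mul_nonneg (by positivity); linarith
  refine ⟨TT b 1 0, XX b 1 0, fun n => TT b (1 - 1 / ((φ n + 2 : ℕ) : ℝ)) (NN p (φ n + 2)),
    fun n => XX b (1 - 1 / ((φ n + 2 : ℕ) : ℝ)) (NN p (φ n + 2)), fun n => ss p (φ n),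
    TT_contr hb zero_le_one le_rfl 0, fun n => TT_contr hb (hr0 _) (hr1 _) _,
    isValue_TT hb zero_le_one le_rfl 0, fun n => isValue_TT hb (hr0 _) (hr1 _) _, ?_, ?_, ?_, ?_, ?_,
    hsφ, (ss_tendsto hp).comp hφ.tendsto_atTop⟩
  · refine lt_of_le_of_lt (iSup_le fun n => ?_) (ENNReal.one_lt_top)
    have e1 : TT b 1 0 - TT b (1 - 1 / ((φ n + 2 : ℕ) : ℝ)) (NN p (φ n + 2)) =
        (((1 / ((φ n + 2 : ℕ) : ℝ)) : ℝ) : ℂ) • PP b (NN p (φ n + 2)) := by
      rw [hT1]; unfold TT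
      rw [sub_sub_cancel, sub_sub_cancel]
    rw [e1, schatten_smul_PP hb hp.le (by positivity)]
    rw [← ENNReal.ofReal_one]
    apply ENNReal.ofReal_le_ofReal
    have h1 := NN_upper hp (m := φ n + 2) (by omega)
    have h2 : (0:ℝ) < ((φ n + 2 : ℕ) : ℝ) := by positivity
    rw [one_div, inv_mul_le_iff₀ h2, mul_one]
    exact h1
  · intro i j _
    simp only [TT_norm hb (hr0 _) (hr1 _)]
    exact le_rfl
  · simp only [TT_norm hb (hr0 _) (hr1 _)]
    exact tendsto_const_nhds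
  · intro n
    have hG1 : GG 1 = 0 := by simp [GG]
    have e1 : XX b 1 0 - XX b (1 - 1 / ((φ n + 2 : ℕ) : ℝ)) (NN p (φ n + 2)) =
        ((GG (1 - 1 / ((φ n + 2 : ℕ) : ℝ)) : ℝ) : ℂ) • PP b (NN p (φ n + 2)) := by
      unfold XX
      rw [hG1]
      simp
    rw [e1, schatten_smul_PP hb hp.le (hGpos _)]
    rfl
  · intro n
    exact mul_nonneg (hGpos _) (by positivity)

end Pool.Agent.Results.MP_6ade77_an.Unbounded
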